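import Pool.Agent.Lib.MP_524519_ag.DU5.AB.Iface

/-! # DU5/AB, module PDR: the `(p-1)`-st partial derivative in the `p`-basis -/

set_option autoImplicit false

namespace Pool.Agent.DU5.AB.H51

open MvPowerSeries Pool.Agent.DU5 Pool.Agent.DU5.AB

theorem it_sum {k S : Type} [Field k] [CommRing S] [Algebra k S] (E : Derivation k S S) (n : ℕ)
    {ι : Type} (s : Finset ι) (a : ι → S) : E^[n] (∑ i ∈ s, a i) = ∑ i ∈ s, E^[n] (a i) := by
  classical
  induction s using Finset.induction_on with
  | empty => rw [Finset.sum_empty, Finset.sum_empty, it_zero]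
  | insert i s hi ih => rw [Finset.sum_insert hi, Finset.sum_insert hi, it_add, ih]

/-- iterated derivative of a power of the coordinate -/
theorem it_X_pow {k : Type} [Field k] (i : Fin 3) (n m : ℕ) :
    (pderiv k i)^[n] ((X i : O k 3) ^ m) = (m.descFactorial n : O k 3) * X i ^ (m - n) := by
  induction n with
  | zero => simp
  | succ n ih =>
    rw [Function.iterate_succ_apply', ih, Nat.descFactorial_succ]
    rw [Derivation.leibniz, Derivation.leibniz_pow, pderiv_X_self]
    have h1 : pderiv k i ((m.descFactorial n : ℕ) : O k 3) = 0 := by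
      exact (pderiv k i).map_natCast _
    rw [h1]
    simp only [smul_eq_mul, nsmul_eq_mul, mul_one, mul_zero, add_zero]
    rw [show m - (n + 1) = m - n - 1 by omega]
    push_cast
    ring

/-- module PDR -/
theorem pdr (hPB : PBStatement) : PDRStatement := by
  intro p _ k _ _ _ G i
  have hp : p.Prime := Fact.out
  obtain ⟨_, _, h3, _⟩ := hPB p k
  conv_lhs => rw [h3 G]
  rw [it_sum, ← Finset.sum_neg_distrib]
  apply Finset.sum_congr rfl
  intro a _
  rw [it_const (pderiv k i) (p - 1) (der_pow_char p (pderiv k i) (pc p a G))]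
  -- the monomial
  have hmn : (mn a : O k 3) = ((X (i + 1) : O k 3) ^ (a (i + 1) : ℕ) * X (i + 2) ^ (a (i + 2) : ℕ)) *
      X i ^ (a i : ℕ) := by
    unfold mn
    rw [Fin.prod_univ_three]
    fin_cases i <;> simp <;> ring
  have hc : pderiv k i ((X (i + 1) : O k 3) ^ (a (i + 1) : ℕ) * X (i + 2) ^ (a (i + 2) : ℕ)) = 0 := by
    have h1 : pderiv k i (X (i + 1) : O k 3) = 0 := by
      apply pderiv_X_of_ne
      fin_cases i <;> decide
    have h2 : pderiv k i (X (i + 2) : O k 3) = 0 := by
      apply pderiv_X_of_ne
      fin_cases i <;> decide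
    rw [Derivation.leibniz, Derivation.leibniz_pow, Derivation.leibniz_pow, h1, h2]
    simp
  rw [hmn, it_const (pderiv k i) (p - 1) hc, it_X_pow]
  have ha := (a i).isLt
  split_ifs with h
  · have h4 : (a i : ℕ) = p - 1 := by omega
    have h5 : ((p - 1).factorial : O k 3) = -1 := by
      have h6 : (((p - 1).factorial : ℕ) : k) = -1 := by
        have h7 := ZMod.wilsons_lemma p
        have h8 := congrArg (ZMod.castHom (dvd_refl p) k) h7
        rw [map_natCast, map_neg, map_one] at h8
        exact h8
      have h9 := congrArg (algebraMap k (O k 3)) h6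
      simpa using h9
    rw [h4, Nat.descFactorial_self, h5, Nat.sub_self, pow_zero]
    ring
  · have h4 : (a i : ℕ) < p - 1 := by omega
    rw [Nat.descFactorial_of_lt h4]
    simp

end Pool.Agent.DU5.AB.H51
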